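import Pool.Agent.helper48.EXI.Spec1

/-! # Row npt:HHV (MP_8f32d0_ag, block EXI): the Hasse-Witt matrix, base change and the vector lemma -/

set_option autoImplicit false

namespace EXI

open scoped Classical
open AN

noncomputable section

theorem HHV_fx {R R' : Type} [CommRing R] [CommRing R'] (φ : R →+* R') {N : ℕ} (t : Fin N → R) :
    mp φ (fx t) = fx fun i => φ (t i) := by
  unfold fx
  rw [map_prod]
  refine Finset.prod_congr rfl fun i _ => ?_
  rw [map_sub, mp_mono, mp_C, map_one]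

theorem HHV_le_mul {R : Type} [CommRing R] {f g : LS R} (hf : ∀ n : ℤ, 0 < n → cf f n = 0)
    (hg : ∀ n : ℤ, 0 < n → cf g n = 0) : ∀ n : ℤ, 0 < n → cf (f * g) n = 0 := by
  intro n hn
  obtain ⟨a, ha⟩ := exists_lb f
  obtain ⟨b, hb⟩ := exists_lb g
  rw [cf_mul_finset f g n (a := a) (b := b) ha hb]
  refine Finset.sum_eq_zero fun i _ => ?_
  rcases lt_or_ge 0 i with h | h
  · rw [hf i h, zero_mul]
  · rw [hg (n - i) (by omega), mul_zero]

theorem HHV_prod {R : Type} [CommRing R] {ι : Type} (c : ℤ) (s : Finset ι) (u : ι → LS R)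
    (h1 : ∀ i, ∀ n : ℤ, 0 < n → cf (u i) n = 0) (h2 : ∀ i, u i ∈ GE R (-c)) :
    (∀ n : ℤ, 0 < n → cf (∏ i ∈ s, u i) n = 0) ∧ ∏ i ∈ s, u i ∈ GE R (-(c * (s.card : ℤ))) := by
  induction s using Finset.induction_on with
  | empty =>
    refine ⟨fun n hn => ?_, ?_⟩
    · rw [Finset.prod_empty, cf_one, if_neg (by omega)]
    · rw [Finset.prod_empty, Finset.card_empty, Nat.cast_zero, mul_zero, neg_zero]
      exact one_mem_PS
  | insert a s ha ih =>
    rw [Finset.prod_insert ha, Finset.card_insert_of_notMem ha]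
    refine ⟨HHV_le_mul (h1 a) ih.1, ?_⟩
    have h3 := GE_mul (h2 a) ih.2
    rw [show (-(c * ((s.card + 1 : ℕ) : ℤ))) = -c + -(c * (s.card : ℤ)) by push_cast; ring]
    exact h3

theorem HHV_pow {R : Type} [CommRing R] {N : ℕ} (t : Fin N → R) (e : ℕ) :
    (∀ n : ℤ, 0 < n → cf (fx t ^ e) n = 0) ∧ fx t ^ e ∈ GE R (-((N : ℤ) * e)) := by
  have h1 := HHV_prod (R := R) 1 Finset.univ (fun i : Fin N => mono (-1) (1 : R) - LS.C (t i)) (by
    intro i n hn
    rw [cf_sub, cf_mono, cf_C, if_neg (by omega), if_neg (by omega), sub_zero]) (by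
    intro i n hn
    rw [cf_sub, cf_mono, cf_C, if_neg (by omega), if_neg (by omega), sub_zero])
  rw [Finset.card_univ, Fintype.card_fin, one_mul] at h1
  have h2 := HHV_prod (R := R) (N : ℤ) Finset.univ (fun _ : Fin e => fx t) (fun _ => h1.1) (fun _ => h1.2)
  rw [Finset.prod_const, Finset.card_univ, Fintype.card_fin] at h2
  exact h2

/-- the vector lemma -/
theorem HHV_vec (p : ℕ) [hp : Fact p.Prime] (g : ℕ) (R : Type) [CommRing R] [CharP R p] (t : Fin (2 * g + 1) → R)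
    (hp2 : p ≠ 2) (ξ : LS R) (i : Fin g) :
    cf (Fi p t ξ) (((i : ℕ) : ℤ) + 1) = ∑ j : Fin g, HH p g t i j * (cf ξ (((j : ℕ) : ℤ) + 1)) ^ p := by
  obtain ⟨e, he⟩ : ∃ e, e = (p - 1) / 2 := ⟨_, rfl⟩
  have hpe : (p : ℤ) = 2 * e + 1 := by
    have h1 := hp.out.eq_two_or_odd
    have h2 := hp.out.two_le
    omega
  have hp0 : (0 : ℤ) < p := by omega
  have hc : ∀ j : ℤ, cf (ξ ^ p) (p * j) = cf ξ j ^ p := by
    intro j
    rw [cf_pow_char p ξ (p * j), if_pos (dvd_mul_right _ _), Int.mul_ediv_cancel_left _ hp0.ne']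
  unfold Fi HH
  rw [← he]
  obtain ⟨h1, h2⟩ := HHV_pow t e
  obtain ⟨F, hF⟩ : ∃ F, F = fx t ^ e := ⟨_, rfl⟩
  rw [← hF] at h1 h2 ⊢
  obtain ⟨b, hb⟩ := exists_lb (ξ ^ p)
  rw [cf_mul_finset F (ξ ^ p) _ (b := b) h2 hb]
  have hi : ((i : ℕ) : ℤ) < g := by exact_mod_cast i.2
  symm
  refine Finset.sum_bij_ne_zero (fun j _ _ => ((i : ℕ) : ℤ) + 1 - p * (((j : ℕ) : ℤ) + 1)) ?_ ?_ ?_ ?_
  · intro j _ hne
    rw [Finset.mem_Icc]
    constructor
    · by_contra hc'
      exact hne (by rw [h2 _ (not_le.1 hc'), zero_mul])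
    · by_contra hc'
      refine hne ?_
      rw [← hc, hb _ (by omega), mul_zero]
  · intro j _ _ j' _ _ h
    have h3 : (p : ℤ) * (((j : ℕ) : ℤ) + 1) = p * (((j' : ℕ) : ℤ) + 1) := by
      omega
    have h4 := mul_left_cancel₀ hp0.ne' h3
    apply Fin.ext
    omega
  · intro m hm hne
    rw [Finset.mem_Icc] at hm
    have hm0 : m ≤ 0 := by
      by_contra hc'
      exact hne (by rw [h1 m (not_le.1 hc'), zero_mul])
    have hd : (p : ℤ) ∣ ((i : ℕ) : ℤ) + 1 - m := by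
      by_contra hc'
      refine hne ?_
      rw [cf_pow_char p ξ _, if_neg hc', mul_zero]
    obtain ⟨j, hj⟩ := hd
    have hj1 : 1 ≤ j := by
      by_contra hc'
      have h3 : j ≤ 0 := by omega
      nlinarith
    have hj2 : j ≤ g := by
      by_contra hc'
      have h3 : (g : ℤ) + 1 ≤ j := by omega
      have h4 : (p : ℤ) * (g + 1) ≤ p * j := mul_le_mul_of_nonneg_left h3 hp0.le
      have h5 := hm.1
      push_cast at h5
      nlinarith
    refine ⟨⟨(j - 1).toNat, by omega⟩, Finset.mem_univ _, ?_, ?_⟩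
    · have e1 : ((((⟨(j - 1).toNat, by omega⟩ : Fin g) : ℕ) : ℤ) + 1) = j := by
        show (((j - 1).toNat : ℕ) : ℤ) + 1 = j
        omega
      rw [e1, ← hc, ← hj, show ((i : ℕ) : ℤ) + 1 - (((i : ℕ) : ℤ) + 1 - m) = m by ring]
      exact hne
    · show ((i : ℕ) : ℤ) + 1 - p * ((((j - 1).toNat : ℕ) : ℤ) + 1) = m
      rw [show (((j - 1).toNat : ℕ) : ℤ) + 1 = j by omega]
      omega
  · intro j _ _
    rw [show ((i : ℕ) : ℤ) + 1 - (((i : ℕ) : ℤ) + 1 - p * (((j : ℕ) : ℤ) + 1)) = p * (((j : ℕ) : ℤ) + 1) by ring, hc]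

theorem HHV : HHV_stmt := by
  refine ⟨?_, ?_⟩
  · intro p g N R R' _ _ φ t
    ext i j
    unfold HH
    rw [Matrix.map_apply, ← cf_mp, map_pow, HHV_fx]
  · intro p hp g R _ _ t hp2 n ξ
    induction n with
    | zero =>
      intro i
      rw [Function.iterate_zero, id_eq, pow_zero]
      show _ = (1 : Matrix (Fin g) (Fin g) R).mulVec (fun j : Fin g => (cf ξ (((j : ℕ) : ℤ) + 1)) ^ 1) i
      rw [Matrix.one_mulVec, pow_one]
    | succ n ih =>
      intro i
      rw [Function.iterate_succ_apply', HHV_vec p g R t hp2]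
      show _ = (HH p g t * frM p (MN p (HH p g t) n)).mulVec (fun j : Fin g => (cf ξ (((j : ℕ) : ℤ) + 1)) ^ p ^ (n + 1)) i
      rw [← Matrix.mulVec_mulVec]
      show _ = ∑ j : Fin g, HH p g t i j * (frM p (MN p (HH p g t) n)).mulVec (fun j : Fin g => (cf ξ (((j : ℕ) : ℤ) + 1)) ^ p ^ (n + 1)) j
      refine Finset.sum_congr rfl fun j _ => ?_
      rw [ih j]
      show HH p g t i j * (∑ k : Fin g, MN p (HH p g t) n j k * (cf ξ (((k : ℕ) : ℤ) + 1)) ^ p ^ n) ^ p =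
        HH p g t i j * ∑ k : Fin g, (MN p (HH p g t) n j k) ^ p * (cf ξ (((k : ℕ) : ℤ) + 1)) ^ p ^ (n + 1)
      rw [sum_pow_char p]
      refine congrArg (HH p g t i j * ·) (Finset.sum_congr rfl fun k _ => ?_)
      rw [mul_pow, ← pow_mul, ← pow_succ]

end

end EXI
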